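import Mathlib
import Pool.Agent.H59.L.S8.PZ871.Defs
set_option autoImplicit false
set_option maxHeartbeats 1000000
namespace Pool.Agent.PZ871.PLaux

open MeasureTheory Set Filter Topology
open scoped ENNReal NNReal

theorem bm_compact {K L C : Set ℝ} (hK : IsCompact K) (hL : IsCompact L)
    (hK' : K.Nonempty) (hL' : L.Nonempty)
    (hC : ∀ x ∈ K, ∀ y ∈ L, (x + y) / 2 ∈ C) :
    volume K + volume L ≤ 2 * volume C := by
  obtain ⟨a, ha, hamax⟩ := hK.exists_isMaxOn hK' continuousOn_id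
  obtain ⟨b, hb, hbmin⟩ := hL.exists_isMinOn hL' continuousOn_id
  have hamax' : ∀ x ∈ K, x ≤ a := fun x hx => hamax hx
  have hbmin' : ∀ y ∈ L, b ≤ y := fun y hy => hbmin hy
  set S1 : Set ℝ := (fun x => (x + b) / 2) '' K with hS1
  set S2 : Set ℝ := (fun y => (a + y) / 2) '' L with hS2
  have hS1c : IsCompact S1 := hK.image (by fun_prop)
  have hS2c : IsCompact S2 := hL.image (by fun_prop)
  have h1 : S1 ∪ S2 ⊆ C := by
    rintro z (⟨x, hx, rfl⟩ | ⟨y, hy, rfl⟩)
    · exact hC x hx b hb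
    · exact hC a ha y hy
  have hint : volume (S1 ∩ S2) = 0 := by
    refine measure_mono_null (t := {(a + b) / 2}) ?_ (by simp)
    rintro z ⟨⟨x, hx, hxz⟩, ⟨y, hy, hyz⟩⟩
    simp only at hxz hyz
    have e1 := hamax' x hx
    have e2 := hbmin' y hy
    simp only [mem_singleton_iff]
    linarith
  have hv1 : volume S1 = ENNReal.ofReal (1 / 2) * volume K := by
    have : S1 = (fun x => x + b / 2) '' ((fun x => (1 / 2 : ℝ) * x) '' K) := by
      rw [hS1, image_image]
      congr 1
      ext x; ring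
    rw [this]
    have e1 : volume ((fun x : ℝ => x + b / 2) '' ((fun x => (1 / 2 : ℝ) * x) '' K))
        = volume ((fun x => (1 / 2 : ℝ) * x) '' K) := by
      simp
    rw [e1]
    have e2 := Measure.addHaar_image_homothety (volume : Measure ℝ) (0 : ℝ) (1 / 2 : ℝ) K
    have e3 : (fun x => (1 / 2 : ℝ) * x) '' K = (AffineMap.homothety (0 : ℝ) (1 / 2 : ℝ)) '' K := by
      congr 1
      ext x
      simp [AffineMap.homothety_apply]
    rw [e3, e2]
    norm_num
  have hv2 : volume S2 = ENNReal.ofReal (1 / 2) * volume L := by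
    have : S2 = (fun x => x + a / 2) '' ((fun x => (1 / 2 : ℝ) * x) '' L) := by
      rw [hS2, image_image]
      congr 1
      ext x; ring
    rw [this]
    have e1 : volume ((fun x : ℝ => x + a / 2) '' ((fun x => (1 / 2 : ℝ) * x) '' L))
        = volume ((fun x => (1 / 2 : ℝ) * x) '' L) := by
      simp
    rw [e1]
    have e2 := Measure.addHaar_image_homothety (volume : Measure ℝ) (0 : ℝ) (1 / 2 : ℝ) L
    have e3 : (fun x => (1 / 2 : ℝ) * x) '' L = (AffineMap.homothety (0 : ℝ) (1 / 2 : ℝ)) '' L := by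
      congr 1
      ext x
      simp [AffineMap.homothety_apply]
    rw [e3, e2]
    norm_num
  have hu : volume (S1 ∪ S2) + volume (S1 ∩ S2) = volume S1 + volume S2 :=
    measure_union_add_inter S1 hS2c.measurableSet
  rw [hint, add_zero] at hu
  have h2 : volume S1 + volume S2 ≤ volume C := by
    rw [← hu]; exact measure_mono h1
  rw [hv1, hv2] at h2
  have h3 : (2 : ℝ≥0∞) * (ENNReal.ofReal (1 / 2)) = 1 := by
    rw [show (2 : ℝ≥0∞) = ENNReal.ofReal 2 by simp, ← ENNReal.ofReal_mul (by norm_num)]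
    norm_num
  calc volume K + volume L = 2 * (ENNReal.ofReal (1 / 2) * volume K + ENNReal.ofReal (1 / 2) * volume L) := by
        rw [mul_add, ← mul_assoc, ← mul_assoc, h3, one_mul, one_mul]
    _ ≤ 2 * volume C := by gcongr

theorem bm {A B C : Set ℝ} (hA : MeasurableSet A) (hB : MeasurableSet B)
    (hA' : A.Nonempty) (hB' : B.Nonempty)
    (hC : ∀ x ∈ A, ∀ y ∈ B, (x + y) / 2 ∈ C) :
    volume A + volume B ≤ 2 * volume C := by
  obtain ⟨a, ha⟩ := hA'
  obtain ⟨b, hb⟩ := hB'
  have key : ∀ K, K ⊆ A → IsCompact K → ∀ L, L ⊆ B → IsCompact L →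
      volume K + volume L ≤ 2 * volume C := by
    intro K hKA hK L hLB hL
    have h := bm_compact (K := insert a K) (L := insert b L) (C := C) (hK.insert a) (hL.insert b)
      (insert_nonempty _ _) (insert_nonempty _ _) (fun x hx y hy => hC x (insert_subset ha hKA hx) y
        (insert_subset hb hLB hy))
    refine le_trans ?_ h
    gcongr
    · exact subset_insert _ _
    · exact subset_insert _ _
  rw [hA.measure_eq_iSup_isCompact, hB.measure_eq_iSup_isCompact]
  simp only [iSup_and']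
  refine ENNReal.biSup_add_biSup_le' ⟨∅, empty_subset _, isCompact_empty⟩
    ⟨∅, empty_subset _, isCompact_empty⟩ ?_
  rintro K ⟨hKA, hK⟩ L ⟨hLB, hL⟩
  exact key K hKA hK L hLB hL

/-- one-dimensional Prekopa-Leindler, normalised case -/
theorem pl1_aux (f g h : ℝ → ℝ) (hf : Measurable f) (hg : Measurable g) (hh : Measurable h)
    (f0 : ∀ x, 0 ≤ f x) (g0 : ∀ x, 0 ≤ g x) (h0 : ∀ x, 0 ≤ h x)
    (f1 : ∀ x, f x ≤ 1) (g1 : ∀ x, g x ≤ 1)
    (hfs : ∀ t, t < 1 → ∃ x, t < f x) (hgs : ∀ t, t < 1 → ∃ x, t < g x)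
    (H : ∀ x y, f x * g y ≤ h ((x + y) / 2) ^ 2) :
    (∫⁻ x, ENNReal.ofReal (f x)) + (∫⁻ x, ENNReal.ofReal (g x))
      ≤ 2 * ∫⁻ x, ENNReal.ofReal (h x) := by
  rw [lintegral_eq_lintegral_meas_lt volume (Filter.Eventually.of_forall f0) hf.aemeasurable,
    lintegral_eq_lintegral_meas_lt volume (Filter.Eventually.of_forall g0) hg.aemeasurable,
    lintegral_eq_lintegral_meas_lt volume (Filter.Eventually.of_forall h0) hh.aemeasurable]
  have hm : ∀ k : ℝ → ℝ, Measurable (fun t : ℝ => volume {a : ℝ | t < k a}) := fun k =>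
    (Antitone.measurable (fun s t hst => measure_mono (fun a (ha : t < k a) =>
      show s < k a from lt_of_le_of_lt hst ha)))
  rw [← lintegral_add_left (hm f), ← lintegral_const_mul _ (hm h)]
  refine setLIntegral_mono' measurableSet_Ioi ?_
  intro t ht
  have ht0 : 0 < t := ht
  by_cases ht1 : t < 1
  · refine bm (hf measurableSet_Ioi) (hg measurableSet_Ioi) (hfs t ht1) (hgs t ht1) ?_
    intro x hx y hy
    have hx' : t < f x := hx
    have hy' : t < g y := hy
    have hxy := H x y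
    have h2 : t ^ 2 < h ((x + y) / 2) ^ 2 := by
      calc t ^ 2 = t * t := by ring
        _ < f x * g y := by
          apply mul_lt_mul'' hx' hy' ht0.le ht0.le
        _ ≤ _ := hxy
    exact lt_of_pow_lt_pow_left₀ 2 (h0 _) h2
  · push Not at ht1
    have e1 : {a : ℝ | t < f a} = ∅ := by
      ext a; simp; linarith [f1 a]
    have e2 : {a : ℝ | t < g a} = ∅ := by
      ext a; simp; linarith [g1 a]
    simp [e1, e2]

theorem pl1_bdd (F G H : ℝ → ℝ≥0∞) (hF : Measurable F) (hG : Measurable G) (hH : Measurable H)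
    (k : ℝ≥0∞) (hk : k ≠ ∞) (Fk : ∀ x, F x ≤ k) (Gk : ∀ x, G x ≤ k)
    (HH : ∀ x y, F x * G y ≤ H ((x + y) / 2) ^ 2) :
    (∫⁻ x, F x) * (∫⁻ x, G x) ≤ (∫⁻ x, H x) ^ 2 := by
  by_cases hM0 : (⨆ x, F x) = 0
  · have : ∀ x, F x = 0 := by simpa using hM0
    simp [this]
  by_cases hN0 : (⨆ x, G x) = 0
  · have : ∀ x, G x = 0 := by simpa using hN0
    simp [this]
  set M := ⨆ x, F x with hM
  set N := ⨆ x, G x with hN
  have hMk : M ≤ k := iSup_le Fk
  have hNk : N ≤ k := iSup_le Gk
  have hMt : M ≠ ∞ := ne_top_of_le_ne_top hk hMk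
  have hNt : N ≠ ∞ := ne_top_of_le_ne_top hk hNk
  by_cases hC : (∫⁻ x, H x) = ∞
  · rw [hC]; simp
  set m := M.toReal with hm
  set n := N.toReal with hn
  have mpos : 0 < m := ENNReal.toReal_pos hM0 hMt
  have npos : 0 < n := ENNReal.toReal_pos hN0 hNt
  have hFt : ∀ x, F x ≠ ∞ := fun x => ne_top_of_le_ne_top hk (Fk x)
  have hGt : ∀ x, G x ≠ ∞ := fun x => ne_top_of_le_ne_top hk (Gk x)
  have hmn : 0 < Real.sqrt (m * n) := Real.sqrt_pos.mpr (by positivity)
  set f : ℝ → ℝ := fun x => m⁻¹ * (F x).toReal with hf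
  set g : ℝ → ℝ := fun x => n⁻¹ * (G x).toReal with hg
  set h' : ℝ → ℝ≥0∞ := fun x => min (ENNReal.ofReal (Real.sqrt (m * n))⁻¹ * H x) 1 with hh'
  set h : ℝ → ℝ := fun x => (h' x).toReal with hh
  have h't : ∀ x, h' x ≠ ∞ := fun x => ne_top_of_le_ne_top ENNReal.one_ne_top (min_le_right _ _)
  have f0 : ∀ x, 0 ≤ f x := fun x => by positivity
  have g0 : ∀ x, 0 ≤ g x := fun x => by positivity
  have h0 : ∀ x, 0 ≤ h x := fun x => ENNReal.toReal_nonneg
  have FM : ∀ x, (F x).toReal ≤ m := fun x => ENNReal.toReal_mono hMt (le_iSup F x)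
  have GN : ∀ x, (G x).toReal ≤ n := fun x => ENNReal.toReal_mono hNt (le_iSup G x)
  have f1 : ∀ x, f x ≤ 1 := fun x => by
    have := FM x
    simp only [hf]
    rw [inv_mul_le_iff₀ mpos]; linarith
  have g1 : ∀ x, g x ≤ 1 := fun x => by
    have := GN x
    simp only [hg]
    rw [inv_mul_le_iff₀ npos]; linarith
  have hfs : ∀ t, t < 1 → ∃ x, t < f x := by
    intro t ht
    by_cases ht0 : t < 0
    · exact ⟨0, lt_of_lt_of_le ht0 (f0 0)⟩
    push Not at ht0
    have h1 : ENNReal.ofReal (t * m) < M := by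
      rw [ENNReal.ofReal_lt_iff_lt_toReal (by positivity) hMt]
      nlinarith
    obtain ⟨x, hx⟩ := lt_iSup_iff.mp h1
    refine ⟨x, ?_⟩
    rw [ENNReal.ofReal_lt_iff_lt_toReal (by positivity) (hFt x)] at hx
    simp only [hf]
    rw [lt_inv_mul_iff₀ mpos]; linarith
  have hgs : ∀ t, t < 1 → ∃ x, t < g x := by
    intro t ht
    by_cases ht0 : t < 0
    · exact ⟨0, lt_of_lt_of_le ht0 (g0 0)⟩
    push Not at ht0
    have h1 : ENNReal.ofReal (t * n) < N := by
      rw [ENNReal.ofReal_lt_iff_lt_toReal (by positivity) hNt]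
      nlinarith
    obtain ⟨x, hx⟩ := lt_iSup_iff.mp h1
    refine ⟨x, ?_⟩
    rw [ENNReal.ofReal_lt_iff_lt_toReal (by positivity) (hGt x)] at hx
    simp only [hg]
    rw [lt_inv_mul_iff₀ npos]; linarith
  have H1 : ∀ x y, f x * g y ≤ h ((x + y) / 2) ^ 2 := by
    intro x y
    simp only [hh, hh']
    rcases le_total (ENNReal.ofReal (Real.sqrt (m * n))⁻¹ * H ((x + y) / 2)) 1 with hle | hle
    · rw [min_eq_left hle]
      have hHt : H ((x + y) / 2) ≠ ∞ := by
        intro hinf
        rw [hinf, ENNReal.mul_top (by simpa using hmn)] at hle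
        simp at hle
      rw [ENNReal.toReal_mul, ENNReal.toReal_ofReal (by positivity)]
      have h2 := ENNReal.toReal_mono (by finiteness) (HH x y)
      rw [ENNReal.toReal_mul, ENNReal.toReal_pow] at h2
      have h3 : (Real.sqrt (m * n)) ^ 2 = m * n := Real.sq_sqrt (by positivity)
      simp only [hf, hg]
      rw [mul_pow, inv_pow, h3, mul_inv]
      calc m⁻¹ * (F x).toReal * (n⁻¹ * (G y).toReal)
          = m⁻¹ * n⁻¹ * ((F x).toReal * (G y).toReal) := by ring
        _ ≤ _ := by gcongr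
    · rw [min_eq_right hle]
      simp only [ENNReal.toReal_one, one_pow]
      exact mul_le_one₀ (f1 x) (g0 y) (g1 y)
  have hfm : Measurable f := (hF.ennreal_toReal).const_mul _
  have hgm : Measurable g := (hG.ennreal_toReal).const_mul _
  have hhm : Measurable h := ((hH.const_mul _).min measurable_const).ennreal_toReal
  have main := pl1_aux f g h hfm hgm hhm f0 g0 h0 f1 g1 hfs hgs H1
  have e1 : (∫⁻ x, ENNReal.ofReal (f x)) = ENNReal.ofReal m⁻¹ * ∫⁻ x, F x := by
    rw [← lintegral_const_mul _ hF]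
    refine lintegral_congr (fun x => ?_)
    simp only [hf]
    rw [ENNReal.ofReal_mul (by positivity), ENNReal.ofReal_toReal (hFt x)]
  have e2 : (∫⁻ x, ENNReal.ofReal (g x)) = ENNReal.ofReal n⁻¹ * ∫⁻ x, G x := by
    rw [← lintegral_const_mul _ hG]
    refine lintegral_congr (fun x => ?_)
    simp only [hg]
    rw [ENNReal.ofReal_mul (by positivity), ENNReal.ofReal_toReal (hGt x)]
  have e3 : (∫⁻ x, ENNReal.ofReal (h x)) ≤ ENNReal.ofReal (Real.sqrt (m * n))⁻¹ * ∫⁻ x, H x := by
    rw [← lintegral_const_mul _ hH]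
    refine lintegral_mono (fun x => ?_)
    simp only [hh]
    rw [ENNReal.ofReal_toReal (h't x)]
    exact min_le_left _ _
  have main2 : ENNReal.ofReal m⁻¹ * (∫⁻ x, F x) + ENNReal.ofReal n⁻¹ * (∫⁻ x, G x)
      ≤ 2 * (ENNReal.ofReal (Real.sqrt (m * n))⁻¹ * ∫⁻ x, H x) := by
    rw [← e1, ← e2]
    refine main.trans ?_
    gcongr
  set A := ∫⁻ x, F x with hA
  set B := ∫⁻ x, G x with hB
  set C := ∫⁻ x, H x with hC'
  have hR : 2 * (ENNReal.ofReal (Real.sqrt (m * n))⁻¹ * C) ≠ ∞ := by finiteness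
  have hAt : A ≠ ∞ := by
    intro hinf
    rw [hinf, ENNReal.mul_top (by simpa using mpos)] at main2
    simp only [top_add, top_le_iff] at main2
    exact hR main2
  have hBt : B ≠ ∞ := by
    intro hinf
    rw [hinf, ENNReal.mul_top (by simpa using npos)] at main2
    simp only [add_top, top_le_iff] at main2
    exact hR main2
  have main3 := ENNReal.toReal_mono hR main2
  rw [ENNReal.toReal_add (by finiteness) (by finiteness), ENNReal.toReal_mul, ENNReal.toReal_mul,
    ENNReal.toReal_mul, ENNReal.toReal_mul, ENNReal.toReal_ofReal (by positivity),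
    ENNReal.toReal_ofReal (by positivity), ENNReal.toReal_ofReal (by positivity)] at main3
  have hfin : A.toReal * B.toReal ≤ C.toReal ^ 2 := by
    have a0 : 0 ≤ A.toReal := ENNReal.toReal_nonneg
    have b0 : 0 ≤ B.toReal := ENNReal.toReal_nonneg
    have c0 : 0 ≤ C.toReal := ENNReal.toReal_nonneg
    have h3 : (Real.sqrt (m * n)) ^ 2 = m * n := Real.sq_sqrt (by positivity)
    have hsq : (m⁻¹ * A.toReal + n⁻¹ * B.toReal) ^ 2
        ≤ (2 * ((Real.sqrt (m * n))⁻¹ * C.toReal)) ^ 2 := by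
      have h2 : (ENNReal.toReal 2) = 2 := by simp
      rw [h2] at main3
      gcongr
    have hsq2 : (2 * ((Real.sqrt (m * n))⁻¹ * C.toReal)) ^ 2
        = 4 * (m⁻¹ * n⁻¹) * C.toReal ^ 2 := by
      rw [mul_pow, mul_pow, inv_pow, h3, mul_inv]; ring
    have hsq3 : 4 * (m⁻¹ * n⁻¹) * (A.toReal * B.toReal)
        ≤ (m⁻¹ * A.toReal + n⁻¹ * B.toReal) ^ 2 := by
      nlinarith [sq_nonneg (m⁻¹ * A.toReal - n⁻¹ * B.toReal)]
    have h4 : 4 * (m⁻¹ * n⁻¹) * (A.toReal * B.toReal) ≤ 4 * (m⁻¹ * n⁻¹) * C.toReal ^ 2 := by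
      linarith
    have h5 : 0 < 4 * (m⁻¹ * n⁻¹) := by positivity
    exact le_of_mul_le_mul_left h4 h5
  rw [← ENNReal.ofReal_toReal hAt, ← ENNReal.ofReal_toReal hBt, ← ENNReal.ofReal_toReal hC,
    ← ENNReal.ofReal_mul ENNReal.toReal_nonneg, ← ENNReal.ofReal_pow ENNReal.toReal_nonneg]
  exact ENNReal.ofReal_le_ofReal hfin

/-- one-dimensional Prekopa-Leindler inequality -/
theorem pl1 (F G H : ℝ → ℝ≥0∞) (hF : Measurable F) (hG : Measurable G) (hH : Measurable H)
    (HH : ∀ x y, F x * G y ≤ H ((x + y) / 2) ^ 2) :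
    (∫⁻ x, F x) * (∫⁻ x, G x) ≤ (∫⁻ x, H x) ^ 2 := by
  have trunc : ∀ K : ℝ → ℝ≥0∞, Measurable K →
      (∫⁻ x, K x) = ⨆ k : ℕ, ∫⁻ x, min (K x) (k : ℝ≥0∞) := by
    intro K hK
    rw [← lintegral_iSup (fun k => hK.min measurable_const)]
    · refine lintegral_congr (fun x => ?_)
      rw [← inf_iSup_eq, ENNReal.iSup_natCast]
      simp
    · intro k l hkl x
      simp only
      gcongr
  rw [trunc F hF, trunc G hG, ENNReal.iSup_mul]
  refine iSup_le (fun k => ?_)
  rw [ENNReal.mul_iSup]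
  refine iSup_le (fun l => ?_)
  refine pl1_bdd _ _ H (hF.min measurable_const) (hG.min measurable_const) hH
    (max (k : ℝ≥0∞) l) (by finiteness) (fun x => ?_) (fun x => ?_) (fun x y => ?_)
  · exact (min_le_right _ _).trans (le_max_left _ _)
  · exact (min_le_right _ _).trans (le_max_right _ _)
  · refine le_trans ?_ (HH x y)
    gcongr
    · exact min_le_left _ _
    · exact min_le_left _ _


theorem measurable_cons (n : ℕ) :
    Measurable (fun p : ℝ × (Fin n → ℝ) => (Fin.cons p.1 p.2 : Fin (n + 1) → ℝ)) := by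
  rw [measurable_pi_iff]
  intro i
  refine Fin.cases ?_ (fun j => ?_) i
  · simpa using measurable_fst
  · simp only [Fin.cons_succ]
    exact (measurable_pi_apply j).comp measurable_snd

theorem lintegral_succ (n : ℕ) (f : (Fin (n + 1) → ℝ) → ℝ≥0∞) (hf : Measurable f) :
    (∫⁻ s, f s) = ∫⁻ a : ℝ, ∫⁻ v : Fin n → ℝ, f (Fin.cons a v) := by
  have hmp := (volume_preserving_piFinSuccAbove (fun _ : Fin (n + 1) => ℝ) 0).symm
  have hcons := measurable_cons n
  have h1 := hmp.lintegral_comp hf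
  rw [← h1, Measure.volume_eq_prod, lintegral_prod]
  · simp only [MeasurableEquiv.piFinSuccAbove_symm_apply, Fin.insertNthEquiv_zero]
    rfl
  · have : (fun p : ℝ × (Fin n → ℝ) => f ((MeasurableEquiv.piFinSuccAbove
        (fun _ : Fin (n + 1) => ℝ) 0).symm p)) = fun p => f (Fin.cons p.1 p.2) := by
      ext p
      simp only [MeasurableEquiv.piFinSuccAbove_symm_apply, Fin.insertNthEquiv_zero]
      rfl
    rw [this]
    exact (hf.comp hcons).aemeasurable

/-- Prekopa-Leindler in dimension `n`, midpoint form -/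
theorem pln : ∀ (n : ℕ) (f g h : (Fin n → ℝ) → ℝ≥0∞), Measurable f → Measurable g →
    Measurable h →
    (∀ s t : Fin n → ℝ, f s * g t ≤ h (fun i => (s i + t i) / 2) ^ 2) →
    (∫⁻ s, f s) * (∫⁻ s, g s) ≤ (∫⁻ s, h s) ^ 2 := by
  intro n
  induction n with
  | zero =>
    intro f g h hf hg hh H
    simp only [lintegral_unique]
    have hv : (volume : Measure (Fin 0 → ℝ)) univ = 1 := by
      rw [Measure.volume_pi_eq_dirac (fun i => i.elim0)]; simp
    rw [hv]
    simp only [mul_one]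
    have h1 : ∀ x y : Fin 0 → ℝ, x = y := fun x y => Subsingleton.elim _ _
    have := H (Unique.instInhabited.default) (Unique.instInhabited.default)
    rw [h1 (fun i => _) (Unique.instInhabited.default)] at this
    exact this
  | succ n ih =>
    intro f g h hf hg hh H
    rw [lintegral_succ n f hf, lintegral_succ n g hg, lintegral_succ n h hh]
    have hcons := measurable_cons n
    have hcons2 : ∀ a : ℝ, Measurable (fun v : Fin n → ℝ => (Fin.cons a v : Fin (n + 1) → ℝ)) :=
      fun a => hcons.comp (measurable_const.prodMk measurable_id)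
    refine pl1 _ _ _ ?_ ?_ ?_ ?_
    · exact (hf.comp hcons).lintegral_prod_right'
    · exact (hg.comp hcons).lintegral_prod_right'
    · exact (hh.comp hcons).lintegral_prod_right'
    · intro x y
      refine ih _ _ _ (hf.comp (hcons2 x)) (hg.comp (hcons2 y)) (hh.comp (hcons2 _)) ?_
      intro s t
      have := H (Fin.cons x s) (Fin.cons y t)
      refine this.trans ?_
      gcongr
      apply le_of_eq
      congr 1
      ext i
      refine Fin.cases ?_ (fun j => ?_) i <;> simp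


end Pool.Agent.PZ871.PLaux

namespace Pool.Agent.PZ871.M_pl
open MeasureTheory Set
open scoped RealInnerProductSpace ENNReal



/- TO PROVE -/
theorem pl (n : ℕ) (f g h : E n → ℝ≥0∞) (hf : Measurable f) (hg : Measurable g)
    (hh : Measurable h) (H : ∀ x y, f x * g y ≤ h ((1/2:ℝ) • (x + y)) ^ 2) :
    (∫⁻ x, f x) * (∫⁻ x, g x) ≤ (∫⁻ x, h x) ^ 2 := by
  have hmp := (EuclideanSpace.volume_preserving_symm_measurableEquiv_toLp (Fin n)).symm
  have key : ∀ F : E n → ℝ≥0∞, Measurable F →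
      ∫⁻ x, F x = ∫⁻ s : Fin n → ℝ, F (WithLp.toLp 2 s) := by
    intro F hF
    exact (hmp.lintegral_comp hF).symm
  rw [key f hf, key g hg, key h hh]
  have hcont : Measurable (fun s : Fin n → ℝ => (WithLp.toLp 2 s : E n)) := hmp.measurable
  refine PLaux.pln n (fun s => f (WithLp.toLp 2 s)) (fun s => g (WithLp.toLp 2 s))
    (fun s => h (WithLp.toLp 2 s)) (hf.comp hcont) (hg.comp hcont) (hh.comp hcont) ?_
  intro s t
  have h1 := H (WithLp.toLp 2 s) (WithLp.toLp 2 t)
  have h2 : ((1/2:ℝ) • ((WithLp.toLp 2 s : E n) + WithLp.toLp 2 t)) =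
      (WithLp.toLp 2 (fun i => (s i + t i) / 2) : E n) := by
    ext i
    simp
    ring
  rw [h2] at h1
  exact h1

end Pool.Agent.PZ871.M_pl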